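import Pool.Agent.Helper94.TC.Cheb

/-!
# Block N of MP_1181b9_nt: numerical constants by kernel computation
-/

set_option autoImplicit false
open Finset Real

namespace Pool.Agent.Helper94.TC

open Pool.Agent.Helper9.TC

/-- The primes up to 256. -/
def smallPrimes : List ℕ := [2, 3, 5, 7, 11, 13, 17, 19, 23, 29, 31, 37, 41, 43, 47, 53, 59, 61, 67, 71, 73, 79, 83, 89, 97, 101, 103, 107, 109, 113, 127, 131, 137, 139, 149, 151, 157, 163, 167, 173, 179, 181, 191, 193, 197, 199, 211, 223, 227, 229, 233, 239, 241, 251]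

/-- Their product. -/
noncomputable def PR : ℕ := 64266330917908644872330635228106713310880186591609208114244758680898150367880703152525200743234420230

/-- Their bit mask. -/
noncomputable def SM : ℕ := 3622934801701902697686555901643181168549895964810913375391936802953324275884

/-- Primality test for numbers up to `65536`. -/
noncomputable def isP (m : ℕ) : Bool :=
  Bool.rec (Nat.beq (Nat.gcd m PR) 1) (Nat.beq (Nat.land (Nat.shiftRight SM m) 1) 1)
    (Nat.ble m 256)

theorem PR_eq : PR = smallPrimes.prod := by decide +kernel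

theorem small_prime : ∀ q ∈ smallPrimes, q.Prime ∧ q ≤ 256 := by decide +kernel

theorem small_mem : ∀ q < 257, q.Prime → q ∈ smallPrimes := by decide +kernel

theorem small_isP : ∀ m < 257, (isP m = true ↔ m.Prime) := by decide +kernel

theorem isP_iff (m : ℕ) (hm : m ≤ 65536) : isP m = true ↔ m.Prime := by
  rcases Nat.lt_or_ge m 257 with h | h
  · exact small_isP m h
  · have h1 : Nat.ble m 256 = false := by
      rw [Bool.eq_false_iff, Ne, Nat.ble_eq]
      omega
    have h2 : isP m = Nat.beq (Nat.gcd m PR) 1 := by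
      unfold isP
      rw [h1]
    rw [h2]
    have h3 : Nat.beq (Nat.gcd m PR) 1 = true ↔ Nat.gcd m PR = 1 := Nat.beq_eq ▸ Iff.rfl
    rw [h3]
    constructor
    · intro hg
      by_contra hnp
      have hq := Nat.minFac_prime (n := m) (by omega)
      have hq2 := Nat.minFac_sq_le_self (n := m) (by omega) hnp
      have hq3 : m.minFac < 257 := by
        by_contra hcon
        push Not at hcon
        have : 257 ^ 2 ≤ m.minFac ^ 2 := Nat.pow_le_pow_left hcon 2
        omega
      have hq4 := small_mem _ hq3 hq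
      have hq5 : m.minFac ∣ PR := by
        rw [PR_eq]
        exact List.dvd_prod hq4
      have hq6 := Nat.dvd_gcd (Nat.minFac_dvd m) hq5
      rw [hg] at hq6
      exact hq.one_lt.ne' (Nat.dvd_one.1 hq6)
    · intro hp
      rcases (Nat.coprime_or_dvd_of_prime hp PR) with h4 | h4
      · exact h4
      · exfalso
        rw [PR_eq, (Nat.prime_iff.1 hp).dvd_prod_iff] at h4
        obtain ⟨q, hq, hmq⟩ := h4
        obtain ⟨h5, h6⟩ := small_prime q hq
        have := Nat.le_of_dvd h5.pos hmq
        omega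

/-- Sum over `[lo, lo + 2 ^ d)` by bisection. -/
noncomputable def foldS (f : ℕ → ℕ) (d : ℕ) : ℕ → ℕ :=
  Nat.rec (fun lo => f lo) (fun d ih lo => Nat.add (ih lo) (ih (Nat.add lo (Nat.pow 2 d)))) d

/-- Product over `[lo, lo + 2 ^ d)` by bisection. -/
noncomputable def foldP (f : ℕ → ℕ) (d : ℕ) : ℕ → ℕ :=
  Nat.rec (fun lo => f lo) (fun d ih lo => Nat.mul (ih lo) (ih (Nat.add lo (Nat.pow 2 d)))) d

theorem foldS_eq (f : ℕ → ℕ) (d lo : ℕ) : foldS f d lo = ∑ m ∈ Finset.Ico lo (lo + 2 ^ d), f m := by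
  induction d generalizing lo with
  | zero =>
    change f lo = _
    simp
  | succ d ih =>
    change foldS f d lo + foldS f d (lo + 2 ^ d) = _
    rw [ih, ih, Finset.sum_Ico_consecutive _ (Nat.le_add_right _ _) (Nat.le_add_right _ _)]
    congr 2
    ring

theorem foldP_eq (f : ℕ → ℕ) (d lo : ℕ) : foldP f d lo = ∏ m ∈ Finset.Ico lo (lo + 2 ^ d), f m := by
  induction d generalizing lo with
  | zero =>
    change f lo = _
    simp
  | succ d ih =>
    change foldP f d lo * foldP f d (lo + 2 ^ d) = _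
    rw [ih, ih, Finset.prod_Ico_consecutive _ (Nat.le_add_right _ _) (Nat.le_add_right _ _)]
    congr 2
    ring

/-- The test for membership in `primesIoc a b`. -/
noncomputable def tst (a b m : ℕ) : Bool :=
  Bool.rec false (Bool.rec false (isP m) (Nat.ble m b)) (Nat.ble (Nat.succ a) m)

theorem tst_iff (a b m : ℕ) (hm : m ≤ 65536) :
    tst a b m = true ↔ (a < m ∧ m ≤ b) ∧ m.Prime := by
  unfold tst
  rcases Nat.lt_or_ge a m with h | h
  · have h1 : Nat.ble (Nat.succ a) m = true := by
      rw [Nat.ble_eq]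
      exact h
    rw [h1]
    change (Bool.rec false (isP m) (Nat.ble m b) : Bool) = true ↔ _
    rcases Nat.lt_or_ge b m with h' | h'
    · have h2 : Nat.ble m b = false := by
        rw [Bool.eq_false_iff, Ne, Nat.ble_eq]
        omega
      rw [h2]
      change false = true ↔ _
      constructor
      · intro h; exact absurd h (by decide)
      · rintro ⟨⟨_, h3⟩, _⟩; omega
    · have h2 : Nat.ble m b = true := by
        rw [Nat.ble_eq]
        exact h'
      rw [h2]
      change isP m = true ↔ _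
      rw [isP_iff m hm]
      exact ⟨fun h3 => ⟨⟨h, h'⟩, h3⟩, fun h3 => h3.2⟩
  · have h1 : Nat.ble (Nat.succ a) m = false := by
      rw [Bool.eq_false_iff, Ne, Nat.ble_eq]
      omega
    rw [h1]
    change false = true ↔ _
    constructor
    · intro h; exact absurd h (by decide)
    · rintro ⟨⟨h3, _⟩, _⟩; omega

theorem primesIoc_eq (a b d : ℕ) (hd : d ≤ 16) (hb : b < 2 ^ d ∨ (b = 2 ^ d ∧ 2 ≤ d)) :
    primesIoc a b = (Finset.Ico 0 (0 + 2 ^ d)).filter (fun m => tst a b m = true) := by
  have h16 : 2 ^ d ≤ 2 ^ 16 := Nat.pow_le_pow_right (by norm_num) hd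
  ext m
  rw [mem_primesIoc, Finset.mem_filter, Finset.mem_Ico]
  constructor
  · rintro ⟨⟨h1, h2⟩, h3⟩
    have h4 : m < 2 ^ d := by
      rcases hb with hb | ⟨hb, hd2⟩
      · omega
      · rcases Nat.lt_or_ge m (2 ^ d) with h | h
        · exact h
        · exfalso
          have h5 : m = 2 ^ d := by omega
          rw [h5] at h3
          exact Nat.Prime.not_prime_pow hd2 h3
    refine ⟨⟨Nat.zero_le _, by omega⟩, ?_⟩
    rw [tst_iff a b m (by omega)]
    exact ⟨⟨h1, h2⟩, h3⟩
  · rintro ⟨⟨_, h4⟩, h5⟩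
    rwa [tst_iff a b m (by omega)] at h5

theorem rec_eq_ite (b : Bool) (x y : ℕ) :
    (Bool.rec x y b : ℕ) = if b = true then y else x := by
  cases b <;> rfl

/-- The kernel functions. -/
noncomputable def cnt (a b d : ℕ) : ℕ := foldS (fun m => Bool.rec 0 1 (tst a b m)) d 0
noncomputable def numV (a b d : ℕ) : ℕ := foldP (fun m => Bool.rec 1 (Nat.sub m 1) (tst a b m)) d 0
noncomputable def denV (a b d : ℕ) : ℕ := foldP (fun m => Bool.rec 1 m (tst a b m)) d 0
noncomputable def sumK (a b d : ℕ) : ℕ :=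
  foldS (fun m => Bool.rec 0 (Nat.succ (Nat.div 1000000000000 m)) (tst a b m)) d 0

section
variable (a b d : ℕ) (hd : d ≤ 16) (hb : b < 2 ^ d ∨ (b = 2 ^ d ∧ 2 ≤ d))
include hd hb

theorem card_eq : (primesIoc a b).card = cnt a b d := by
  unfold cnt
  rw [foldS_eq, primesIoc_eq a b d hd hb, Finset.card_filter]
  exact Finset.sum_congr rfl (fun m _ => (rec_eq_ite _ _ _).symm)

theorem numV_eq : ∏ p ∈ primesIoc a b, (p - 1) = numV a b d := by
  unfold numV
  rw [foldP_eq, primesIoc_eq a b d hd hb, Finset.prod_filter]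
  exact Finset.prod_congr rfl (fun m _ => (rec_eq_ite _ _ _).symm)

theorem denV_eq : ∏ p ∈ primesIoc a b, p = denV a b d := by
  unfold denV
  rw [foldP_eq, primesIoc_eq a b d hd hb, Finset.prod_filter]
  exact Finset.prod_congr rfl (fun m _ => (rec_eq_ite _ _ _).symm)

theorem sumK_eq : ∑ p ∈ primesIoc a b, (1000000000000 / p + 1) = sumK a b d := by
  unfold sumK
  rw [foldS_eq, primesIoc_eq a b d hd hb, Finset.sum_filter]
  exact Finset.sum_congr rfl (fun m _ => (rec_eq_ite _ _ _).symm)

end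

theorem V_ge (y d N D : ℕ) (hd : d ≤ 16) (hb : y < 2 ^ d ∨ (y = 2 ^ d ∧ 2 ≤ d)) (hD : 0 < D)
    (h : Nat.ble (Nat.mul N (denV 1 y d)) (Nat.mul D (numV 1 y d)) = true) :
    (N : ℝ) / D ≤ V y := by
  have h1 : N * denV 1 y d ≤ D * numV 1 y d := by
    rw [Nat.ble_eq] at h
    exact h
  have hpos : 0 < ∏ p ∈ primesIoc 1 y, p :=
    Finset.prod_pos (fun p hp => (mem_primesIoc.1 hp).2.pos)
  have h2 : V y = ((∏ p ∈ primesIoc 1 y, (p - 1) : ℕ) : ℝ) / ((∏ p ∈ primesIoc 1 y, p : ℕ) : ℝ) := by
    unfold V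
    rw [Nat.cast_prod, Nat.cast_prod, ← Finset.prod_div_distrib]
    apply Finset.prod_congr rfl
    intro p hp
    have h3 := (mem_primesIoc.1 hp).2
    have h4 : (p : ℝ) ≠ 0 := by exact_mod_cast h3.ne_zero
    rw [Nat.cast_sub h3.one_le]
    field_simp
    simp
  rw [h2]
  rw [div_le_div_iff₀ (by exact_mod_cast hD) (by exact_mod_cast hpos)]
  rw [numV_eq 1 y d hd hb, denV_eq 1 y d hd hb]
  have : N * denV 1 y d ≤ numV 1 y d * D := by
    rw [mul_comm (numV 1 y d)]
    exact h1
  exact_mod_cast this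

theorem S_le (y z d N : ℕ) (hd : d ≤ 16) (hb : z < 2 ^ d ∨ (z = 2 ^ d ∧ 2 ≤ d))
    (h : Nat.ble (sumK y z d) N = true) :
    S y z ≤ (N : ℝ) / 1000000000000 := by
  rw [Nat.ble_eq, ← sumK_eq y z d hd hb] at h
  have h1 : ((∑ p ∈ primesIoc y z, (1000000000000 / p + 1) : ℕ) : ℝ) ≤ (N : ℝ) := by
    exact_mod_cast h
  have h2 : S y z * 1000000000000 ≤ ((∑ p ∈ primesIoc y z, (1000000000000 / p + 1) : ℕ) : ℝ) := by
    unfold S
    rw [Finset.sum_mul, Nat.cast_sum]
    apply Finset.sum_le_sum
    intro p hp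
    have h3 := (mem_primesIoc.1 hp).2
    have h4 : (0 : ℝ) < p := by exact_mod_cast h3.pos
    have h5 : 1000000000000 < p * (1000000000000 / p + 1) := by
      have := Nat.lt_mul_div_succ 1000000000000 h3.pos
      exact this
    have h6 : (1000000000000 : ℝ) < p * ((1000000000000 / p + 1 : ℕ) : ℝ) := by exact_mod_cast h5
    rw [div_mul_eq_mul_div, one_mul, div_le_iff₀ h4]
    linarith
  rw [le_div_iff₀ (by norm_num)]
  linarith

theorem num23 : 0.16358 ≤ V 23 ∧ S 23 512 ≤ 0.60171 ∧ (primesIoc 1 23).card = 9 ∧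
    (primesIoc 23 512).card = 88 := by
  refine ⟨?_, ?_, ?_, ?_⟩
  · have := V_ge 23 5 16358 100000 (by norm_num) (by norm_num) (by norm_num) (by decide +kernel)
    norm_num at this ⊢
    linarith
  · have := S_le 23 512 9 601710000000 (by norm_num) (by norm_num) (by decide +kernel)
    norm_num at this ⊢
    linarith
  · rw [card_eq 1 23 5 (by norm_num) (by norm_num)]
    decide +kernel
  · rw [card_eq 23 512 9 (by norm_num) (by norm_num)]
    decide +kernel

theorem num31 : 0.15285 ≤ V 31 ∧ S 31 1024 ≤ 0.63633 ∧ (primesIoc 1 31).card = 11 ∧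
    (primesIoc 31 1024).card = 161 := by
  refine ⟨?_, ?_, ?_, ?_⟩
  · have := V_ge 31 5 15285 100000 (by norm_num) (by norm_num) (by norm_num) (by decide +kernel)
    norm_num at this ⊢
    linarith
  · have := S_le 31 1024 10 636330000000 (by norm_num) (by norm_num) (by decide +kernel)
    norm_num at this ⊢
    linarith
  · rw [card_eq 1 31 5 (by norm_num) (by norm_num)]
    decide +kernel
  · rw [card_eq 31 1024 10 (by norm_num) (by norm_num)]
    decide +kernel

theorem num47 : 0.1387 ≤ V 47 ∧ S 47 2048 ≤ 0.63378 ∧ (primesIoc 1 47).card = 15 ∧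
    (primesIoc 47 2048).card = 294 := by
  refine ⟨?_, ?_, ?_, ?_⟩
  · have := V_ge 47 6 1387 10000 (by norm_num) (by norm_num) (by norm_num) (by decide +kernel)
    norm_num at this ⊢
    linarith
  · have := S_le 47 2048 11 633780000000 (by norm_num) (by norm_num) (by decide +kernel)
    norm_num at this ⊢
    linarith
  · rw [card_eq 1 47 6 (by norm_num) (by norm_num)]
    decide +kernel
  · rw [card_eq 47 2048 11 (by norm_num) (by norm_num)]
    decide +kernel

theorem num89 : 0.12157 ≤ V 89 ∧ S 89 4096 ≤ 0.58955 ∧ (primesIoc 1 89).card = 24 ∧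
    (primesIoc 89 4096).card = 540 := by
  refine ⟨?_, ?_, ?_, ?_⟩
  · have := V_ge 89 7 12157 100000 (by norm_num) (by norm_num) (by norm_num) (by decide +kernel)
    norm_num at this ⊢
    linarith
  · have := S_le 89 4096 12 589550000000 (by norm_num) (by norm_num) (by decide +kernel)
    norm_num at this ⊢
    linarith
  · rw [card_eq 1 89 7 (by norm_num) (by norm_num)]
    decide +kernel
  · rw [card_eq 89 4096 12 (by norm_num) (by norm_num)]
    decide +kernel

theorem num997 : 0.08096 ≤ V 997 ∧ S 997 32768 ≤ 0.40534 ∧ (primesIoc 1 997).card = 168 ∧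
    (primesIoc 997 32768).card = 3344 := by
  refine ⟨?_, ?_, ?_, ?_⟩
  · have := V_ge 997 10 8096 100000 (by norm_num) (by norm_num) (by norm_num) (by decide +kernel)
    norm_num at this ⊢
    linarith
  · have := S_le 997 32768 15 405340000000 (by norm_num) (by norm_num) (by decide +kernel)
    norm_num at this ⊢
    linarith
  · rw [card_eq 1 997 10 (by norm_num) (by norm_num)]
    decide +kernel
  · rw [card_eq 997 32768 15 (by norm_num) (by norm_num)]
    decide +kernel

theorem num65536 : 0.0506 ≤ V 65536 ∧ (primesIoc 1 65536).card = 6542 := by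
  refine ⟨?_, ?_⟩
  · have := V_ge 65536 16 506 10000 (by norm_num) (by norm_num) (by norm_num) (by decide +kernel)
    norm_num at this ⊢
    linarith
  · rw [card_eq 1 65536 16 (by norm_num) (by norm_num)]
    decide +kernel

/-- `π (2 ^ I) ≤ 2.3 * 2 ^ I / I` for `I ≥ 16` -/
theorem card_primes_pow (I : ℕ) (hI : 16 ≤ I) :
    ((primesIoc 1 (2 ^ I)).card : ℝ) ≤ 2.3 * 2 ^ I / I :=
  card_primes_pow_of (by
    have h := num65536.2
    have e : 2 ^ 16 = 65536 := by norm_num
    rw [e, h]
    norm_num) I hI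

/-- lower bound of Mertens type -/
theorem V_pow (I : ℕ) (hI : 16 ≤ I) :
    0.0506 * 210 / (((I : ℝ) - 1) * (I - 2)) ≤ V (2 ^ I) :=
  V_pow_of (by
    have e : 2 ^ 16 = 65536 := by norm_num
    rw [e]
    exact num65536.1) I hI

end Pool.Agent.Helper94.TC
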