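import Pool.Agent.Helper9.TC.Defs

/-!
# Block C of MP_1181b9_nt: dyadic Chebyshev sums
-/

set_option autoImplicit false
open Finset Real

namespace Pool.Agent.Helper94.TC

open Pool.Agent.Helper9.TC

theorem mem_primesIoc {a b p : ℕ} : p ∈ primesIoc a b ↔ (a < p ∧ p ≤ b) ∧ p.Prime := by
  classical
  unfold primesIoc
  rw [Finset.mem_filter, Finset.mem_Ioc]

theorem card_primes_dyadic_nat (i : ℕ) :
    i * (primesIoc (2 ^ i) (2 ^ (i + 1))).card ≤ 2 ^ (i + 1) := by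
  classical
  have hdvd : ∏ p ∈ primesIoc (2 ^ i) (2 ^ (i + 1)), p ∣ Nat.choose (2 ^ (i + 1)) (2 ^ i) := by
    apply Finset.prod_primes_dvd
    · intro p hp
      exact (mem_primesIoc.1 hp).2.prime
    · intro p hp
      obtain ⟨⟨h1, h2⟩, h3⟩ := mem_primesIoc.1 hp
      refine h3.dvd_choose h1 ?_ h2
      rw [pow_succ]
      omega
  have hpos : 0 < Nat.choose (2 ^ (i + 1)) (2 ^ i) :=
    Nat.choose_pos (Nat.pow_le_pow_right (by norm_num) (Nat.le_succ i))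
  have h1 := Nat.le_of_dvd hpos hdvd
  have h2 : Nat.choose (2 ^ (i + 1)) (2 ^ i) ≤ 2 ^ (2 ^ (i + 1)) := Nat.choose_le_two_pow _ _
  have h3 : (2 ^ i) ^ (primesIoc (2 ^ i) (2 ^ (i + 1))).card ≤
      ∏ p ∈ primesIoc (2 ^ i) (2 ^ (i + 1)), p := by
    apply Finset.pow_card_le_prod
    intro p hp
    exact (mem_primesIoc.1 hp).1.1.le
  have h4 := (h3.trans h1).trans h2
  rw [← pow_mul] at h4
  exact (Nat.pow_le_pow_iff_right (by norm_num)).1 h4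

/-- number of primes in a dyadic interval -/
theorem card_primes_dyadic (i : ℕ) (hi : 1 ≤ i) :
    ((primesIoc (2 ^ i) (2 ^ (i + 1))).card : ℝ) ≤ (2 : ℝ) ^ (i + 1) / i := by
  have h := card_primes_dyadic_nat i
  have hi' : (0 : ℝ) < i := by exact_mod_cast hi
  rw [le_div_iff₀ hi']
  have : ((i * (primesIoc (2 ^ i) (2 ^ (i + 1))).card : ℕ) : ℝ) ≤ ((2 ^ (i + 1) : ℕ) : ℝ) := by
    exact_mod_cast h
  push_cast at this
  linarith

theorem primesIoc_subset (a b c : ℕ) :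
    primesIoc a c ⊆ primesIoc a b ∪ primesIoc b c := by
  intro p hp
  rw [Finset.mem_union, mem_primesIoc, mem_primesIoc]
  obtain ⟨⟨h1, h2⟩, h3⟩ := mem_primesIoc.1 hp
  rcases le_or_gt p b with h | h
  · exact Or.inl ⟨⟨h1, h⟩, h3⟩
  · exact Or.inr ⟨⟨h, h2⟩, h3⟩

/-- One dyadic step for the sum of a nonnegative function, bounded by `c` on the interval. -/
theorem sum_step (f : ℕ → ℝ) (hf : ∀ p, 0 ≤ f p) (i M : ℕ) (hi : 1 ≤ i) (c : ℝ)
    (hc : ∀ p, 2 ^ i < p → f p ≤ c) :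
    ∑ p ∈ primesIoc (2 ^ i) M, f p ≤
      (2 : ℝ) ^ (i + 1) / i * c + ∑ p ∈ primesIoc (2 ^ (i + 1)) M, f p := by
  classical
  have h1 : ∑ p ∈ primesIoc (2 ^ i) M, f p ≤
      ∑ p ∈ primesIoc (2 ^ i) (2 ^ (i + 1)) ∪ primesIoc (2 ^ (i + 1)) M, f p :=
    Finset.sum_le_sum_of_subset_of_nonneg (primesIoc_subset _ _ _) (fun p _ _ => hf p)
  have h2 : ∑ p ∈ primesIoc (2 ^ i) (2 ^ (i + 1)) ∪ primesIoc (2 ^ (i + 1)) M, f p ≤
      ∑ p ∈ primesIoc (2 ^ i) (2 ^ (i + 1)), f p + ∑ p ∈ primesIoc (2 ^ (i + 1)) M, f p := by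
    rw [← Finset.sum_union_inter]
    have := Finset.sum_nonneg (s := primesIoc (2 ^ i) (2 ^ (i + 1)) ∩ primesIoc (2 ^ (i + 1)) M)
      (f := f) (fun p _ => hf p)
    linarith
  have hc0 : 0 ≤ c := (hf (2 ^ i + 1)).trans (hc _ (Nat.lt_succ_self _))
  have h3 : ∑ p ∈ primesIoc (2 ^ i) (2 ^ (i + 1)), f p ≤ (2 : ℝ) ^ (i + 1) / i * c := by
    calc ∑ p ∈ primesIoc (2 ^ i) (2 ^ (i + 1)), f p
        ≤ ∑ p ∈ primesIoc (2 ^ i) (2 ^ (i + 1)), c :=
          Finset.sum_le_sum (fun p hp => hc p (mem_primesIoc.1 hp).1.1)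
      _ = ((primesIoc (2 ^ i) (2 ^ (i + 1))).card : ℝ) * c := by
          rw [Finset.sum_const, nsmul_eq_mul]
      _ ≤ _ := mul_le_mul_of_nonneg_right (card_primes_dyadic i hi) hc0
  linarith

/-- The dyadic step for `1 / p ^ (3/2)`. -/
theorem step15 (i M : ℕ) (hi : 1 ≤ i) :
    ∑ p ∈ primesIoc (2 ^ i) M, 1 / ((p : ℝ) * √p) ≤
      2 / ((i : ℝ) * √((2 : ℝ) ^ i)) +
        ∑ p ∈ primesIoc (2 ^ (i + 1)) M, 1 / ((p : ℝ) * √p) := by
  have hi' : (0 : ℝ) < i := by exact_mod_cast hi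
  have h := sum_step (fun p => 1 / ((p : ℝ) * √p)) (fun p => by positivity) i M hi
    (1 / ((2 : ℝ) ^ i * √((2 : ℝ) ^ i))) (fun p hp => by
      have hp' : (2 : ℝ) ^ i ≤ (p : ℝ) := by
        have : ((2 ^ i : ℕ) : ℝ) ≤ (p : ℝ) := by exact_mod_cast hp.le
        simpa using this
      apply one_div_le_one_div_of_le (by positivity)
      exact mul_le_mul hp' (Real.sqrt_le_sqrt hp') (Real.sqrt_nonneg _) (by positivity))
  have e : (2 : ℝ) ^ (i + 1) / i * (1 / ((2 : ℝ) ^ i * √((2 : ℝ) ^ i))) =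
      2 / ((i : ℝ) * √((2 : ℝ) ^ i)) := by
    have h2 : (0 : ℝ) < 2 ^ i := by positivity
    have h3 : (0 : ℝ) < √((2 : ℝ) ^ i) := Real.sqrt_pos.2 h2
    rw [pow_succ]
    field_simp
  rw [e] at h
  exact h

theorem step2 (i M : ℕ) (hi : 1 ≤ i) :
    ∑ p ∈ primesIoc (2 ^ i) M, 1 / (p : ℝ) ^ 2 ≤
      2 / ((i : ℝ) * (2 : ℝ) ^ i) +
        ∑ p ∈ primesIoc (2 ^ (i + 1)) M, 1 / (p : ℝ) ^ 2 := by
  have hi' : (0 : ℝ) < i := by exact_mod_cast hi
  have h := sum_step (fun p => 1 / (p : ℝ) ^ 2) (fun p => by positivity) i M hi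
    (1 / ((2 : ℝ) ^ i) ^ 2) (fun p hp => by
      have hp' : (2 : ℝ) ^ i ≤ (p : ℝ) := by
        have : ((2 ^ i : ℕ) : ℝ) ≤ (p : ℝ) := by exact_mod_cast hp.le
        simpa using this
      apply one_div_le_one_div_of_le (by positivity)
      exact pow_le_pow_left₀ (by positivity) hp' 2)
  have e : (2 : ℝ) ^ (i + 1) / i * (1 / ((2 : ℝ) ^ i) ^ 2) = 2 / ((i : ℝ) * (2 : ℝ) ^ i) := by
    have h2 : (0 : ℝ) < 2 ^ i := by positivity
    rw [pow_succ]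
    field_simp
  rw [e] at h
  exact h

theorem empty_of_le {a M : ℕ} (h : M ≤ a) : primesIoc a M = ∅ := by
  ext p
  rw [mem_primesIoc]
  constructor
  · rintro ⟨⟨h1, h2⟩, -⟩
    omega
  · intro h
    exact absurd h (Finset.notMem_empty _)

theorem sqrt_two_pow_succ (i : ℕ) : √((2 : ℝ) ^ (i + 1)) = √2 * √((2 : ℝ) ^ i) := by
  rw [pow_succ, mul_comm, Real.sqrt_mul (by norm_num)]

theorem sqrt_two_ge : (1.41421 : ℝ) ≤ √2 := by
  apply Real.le_sqrt_of_sq_le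
  norm_num

theorem sqrt_two_le : √2 ≤ (1.41422 : ℝ) := by
  rw [Real.sqrt_le_left (by norm_num)]
  norm_num

/-- `∑ 1 / p ^ (3/2)` over `p > 2 ^ I`: closed form -/
theorem sum15_closed (I M : ℕ) (hI : 1 ≤ I) :
    ∑ p ∈ primesIoc (2 ^ I) M, 1 / ((p : ℝ) * √p) ≤
      6.829 / ((I : ℝ) * √((2 : ℝ) ^ I)) := by
  have key : ∀ d I : ℕ, 1 ≤ I → M ≤ 2 ^ (I + d) →
      ∑ p ∈ primesIoc (2 ^ I) M, 1 / ((p : ℝ) * √p) ≤ 6.829 / ((I : ℝ) * √((2 : ℝ) ^ I)) := by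
    intro d
    induction d with
    | zero =>
      intro I hI h
      rw [Nat.add_zero] at h
      rw [empty_of_le h, Finset.sum_empty]
      positivity
    | succ d ih =>
      intro I hI h
      have h1 := ih (I + 1) (by omega) (by rw [show I + 1 + d = I + (d + 1) by ring]; exact h)
      have h2 := step15 I M hI
      have hI' : (0 : ℝ) < I := by exact_mod_cast hI
      have hs : (0 : ℝ) < √((2 : ℝ) ^ I) := Real.sqrt_pos.2 (by positivity)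
      have h3 : 6.829 / (((I + 1 : ℕ) : ℝ) * √((2 : ℝ) ^ (I + 1))) ≤
          4.829 / ((I : ℝ) * √((2 : ℝ) ^ I)) := by
        rw [sqrt_two_pow_succ, div_le_div_iff₀ (by positivity) (by positivity)]
        push_cast
        have h4 := sqrt_two_ge
        have h5 : (I : ℝ) * √((2 : ℝ) ^ I) * 6.829 ≤
            (I : ℝ) * √((2 : ℝ) ^ I) * (4.829 * √2) := by
          apply mul_le_mul_of_nonneg_left _ (by positivity)
          nlinarith
        nlinarith [mul_pos hs (show (0 : ℝ) < √2 by positivity)]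
      have h6 : 2 / ((I : ℝ) * √((2 : ℝ) ^ I)) + 4.829 / ((I : ℝ) * √((2 : ℝ) ^ I)) =
          6.829 / ((I : ℝ) * √((2 : ℝ) ^ I)) := by
        rw [← add_div]
        norm_num
      linarith
  obtain ⟨d, hd⟩ : ∃ d : ℕ, M ≤ 2 ^ (I + d) :=
    ⟨M, (Nat.lt_two_pow_self (n := M)).le.trans
      (Nat.pow_le_pow_right (by norm_num) (Nat.le_add_left _ _))⟩
  exact key d I hI hd

theorem sum2_closed (I M : ℕ) (hI : 1 ≤ I) :
    ∑ p ∈ primesIoc (2 ^ I) M, 1 / (p : ℝ) ^ 2 ≤ 4 / ((I : ℝ) * 2 ^ I) := by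
  have key : ∀ d I : ℕ, 1 ≤ I → M ≤ 2 ^ (I + d) →
      ∑ p ∈ primesIoc (2 ^ I) M, 1 / (p : ℝ) ^ 2 ≤ 4 / ((I : ℝ) * 2 ^ I) := by
    intro d
    induction d with
    | zero =>
      intro I hI h
      rw [Nat.add_zero] at h
      rw [empty_of_le h, Finset.sum_empty]
      positivity
    | succ d ih =>
      intro I hI h
      have h1 := ih (I + 1) (by omega) (by rw [show I + 1 + d = I + (d + 1) by ring]; exact h)
      have h2 := step2 I M hI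
      have hI' : (0 : ℝ) < I := by exact_mod_cast hI
      have h3 : 4 / (((I + 1 : ℕ) : ℝ) * (2 : ℝ) ^ (I + 1)) ≤
          2 / ((I : ℝ) * (2 : ℝ) ^ I) := by
        rw [pow_succ, div_le_div_iff₀ (by positivity) (by positivity)]
        push_cast
        have : (0 : ℝ) < 2 ^ I := by positivity
        nlinarith
      have h6 : 2 / ((I : ℝ) * (2 : ℝ) ^ I) + 2 / ((I : ℝ) * (2 : ℝ) ^ I) =
          4 / ((I : ℝ) * 2 ^ I) := by
        rw [← add_div]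
        norm_num
      linarith
  obtain ⟨d, hd⟩ : ∃ d : ℕ, M ≤ 2 ^ (I + d) :=
    ⟨M, (Nat.lt_two_pow_self (n := M)).le.trans
      (Nat.pow_le_pow_right (by norm_num) (Nat.le_add_left _ _))⟩
  exact key d I hI hd

theorem sqrt_even (a : ℕ) : √((2 : ℝ) ^ (2 * a)) = 2 ^ a := by
  rw [pow_mul', Real.sqrt_sq (by positivity)]

theorem step_even (a M : ℕ) (ha : 1 ≤ a) (u v : ℝ)
    (h : ∑ p ∈ primesIoc (2 ^ (2 * a + 1)) M, 1 / ((p : ℝ) * √p) ≤ u)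
    (hv : 2 / (((2 * a : ℕ) : ℝ) * 2 ^ a) + u ≤ v) :
    ∑ p ∈ primesIoc (2 ^ (2 * a)) M, 1 / ((p : ℝ) * √p) ≤ v := by
  have := step15 (2 * a) M (by omega)
  rw [sqrt_even] at this
  linarith

theorem step_odd (a M : ℕ) (u v : ℝ)
    (h : ∑ p ∈ primesIoc (2 ^ (2 * a + 2)) M, 1 / ((p : ℝ) * √p) ≤ u)
    (hv : 1.41422 / (((2 * a + 1 : ℕ) : ℝ) * 2 ^ a) + u ≤ v) :
    ∑ p ∈ primesIoc (2 ^ (2 * a + 1)) M, 1 / ((p : ℝ) * √p) ≤ v := by
  have := step15 (2 * a + 1) M (by omega)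
  rw [sqrt_two_pow_succ, sqrt_even] at this
  have h2 : 2 / (((2 * a + 1 : ℕ) : ℝ) * (√2 * 2 ^ a)) =
      √2 / (((2 * a + 1 : ℕ) : ℝ) * 2 ^ a) := by
    have h3 : √2 * √2 = 2 := Real.mul_self_sqrt (by norm_num)
    have h4 : (0 : ℝ) < √2 := by positivity
    rw [div_eq_div_iff (by positivity) (by positivity)]
    calc 2 * (((2 * a + 1 : ℕ) : ℝ) * 2 ^ a) =
        (√2 * √2) * (((2 * a + 1 : ℕ) : ℝ) * 2 ^ a) := by rw [h3]
      _ = _ := by ring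
  rw [h2] at this
  have h5 : √2 / (((2 * a + 1 : ℕ) : ℝ) * 2 ^ a) ≤ 1.41422 / (((2 * a + 1 : ℕ) : ℝ) * 2 ^ a) :=
    div_le_div_of_nonneg_right sqrt_two_le (by positivity)
  have h6 : 2 * a + 1 + 1 = 2 * a + 2 := by ring
  rw [h6] at this
  linarith

theorem s24 (M : ℕ) : ∑ p ∈ primesIoc (2 ^ 24) M, 1 / ((p : ℝ) * √p) ≤ 0.0000695 := by
  have h := sum15_closed 24 M (by norm_num)
  have e : √((2 : ℝ) ^ 24) = 4096 := by
    rw [show (24 : ℕ) = 2 * 12 by norm_num, sqrt_even]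
    norm_num
  rw [e] at h
  norm_num at h ⊢
  linarith

theorem s23 (M : ℕ) : ∑ p ∈ primesIoc (2 ^ 23) M, 1 / ((p : ℝ) * √p) ≤ 0.0000996 :=
  step_odd 11 M _ _ (s24 M) (by norm_num)
theorem s22 (M : ℕ) : ∑ p ∈ primesIoc (2 ^ 22) M, 1 / ((p : ℝ) * √p) ≤ 0.000144 :=
  step_even 11 M (by norm_num) _ _ (s23 M) (by norm_num)
theorem s21 (M : ℕ) : ∑ p ∈ primesIoc (2 ^ 21) M, 1 / ((p : ℝ) * √p) ≤ 0.00020978 :=
  step_odd 10 M _ _ (s22 M) (by norm_num)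
theorem s20 (M : ℕ) : ∑ p ∈ primesIoc (2 ^ 20) M, 1 / ((p : ℝ) * √p) ≤ 0.00030744 :=
  step_even 10 M (by norm_num) _ _ (s21 M) (by norm_num)
theorem s19 (M : ℕ) : ∑ p ∈ primesIoc (2 ^ 19) M, 1 / ((p : ℝ) * √p) ≤ 0.00045282 :=
  step_odd 9 M _ _ (s20 M) (by norm_num)
theorem s18 (M : ℕ) : ∑ p ∈ primesIoc (2 ^ 18) M, 1 / ((p : ℝ) * √p) ≤ 0.00066984 :=
  step_even 9 M (by norm_num) _ _ (s19 M) (by norm_num)
theorem s17 (M : ℕ) : ∑ p ∈ primesIoc (2 ^ 17) M, 1 / ((p : ℝ) * √p) ≤ 0.0009948 :=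
  step_odd 8 M _ _ (s18 M) (by norm_num)
theorem s16 (M : ℕ) : ∑ p ∈ primesIoc (2 ^ 16) M, 1 / ((p : ℝ) * √p) ≤ 0.0014831 :=
  step_even 8 M (by norm_num) _ _ (s17 M) (by norm_num)
theorem s15 (M : ℕ) : ∑ p ∈ primesIoc (2 ^ 15) M, 1 / ((p : ℝ) * √p) ≤ 0.00222 :=
  step_odd 7 M _ _ (s16 M) (by norm_num)
theorem s14 (M : ℕ) : ∑ p ∈ primesIoc (2 ^ 14) M, 1 / ((p : ℝ) * √p) ≤ 0.0033362 :=
  step_even 7 M (by norm_num) _ _ (s15 M) (by norm_num)
theorem s13 (M : ℕ) : ∑ p ∈ primesIoc (2 ^ 13) M, 1 / ((p : ℝ) * √p) ≤ 0.0050361 :=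
  step_odd 6 M _ _ (s14 M) (by norm_num)
theorem s12 (M : ℕ) : ∑ p ∈ primesIoc (2 ^ 12) M, 1 / ((p : ℝ) * √p) ≤ 0.0076403 :=
  step_even 6 M (by norm_num) _ _ (s13 M) (by norm_num)
theorem s11 (M : ℕ) : ∑ p ∈ primesIoc (2 ^ 11) M, 1 / ((p : ℝ) * √p) ≤ 0.0116581 :=
  step_odd 5 M _ _ (s12 M) (by norm_num)
theorem s10 (M : ℕ) : ∑ p ∈ primesIoc (2 ^ 10) M, 1 / ((p : ℝ) * √p) ≤ 0.0179082 :=
  step_even 5 M (by norm_num) _ _ (s11 M) (by norm_num)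
theorem s9 (M : ℕ) : ∑ p ∈ primesIoc (2 ^ 9) M, 1 / ((p : ℝ) * √p) ≤ 0.0277295 :=
  step_odd 4 M _ _ (s10 M) (by norm_num)

theorem sum15_9 (M : ℕ) : ∑ p ∈ primesIoc 512 M, 1 / ((p : ℝ) * √p) ≤ 0.0280 :=
  (s9 M).trans (by norm_num)
theorem sum15_10 (M : ℕ) : ∑ p ∈ primesIoc 1024 M, 1 / ((p : ℝ) * √p) ≤ 0.0181 :=
  (s10 M).trans (by norm_num)
theorem sum15_11 (M : ℕ) : ∑ p ∈ primesIoc 2048 M, 1 / ((p : ℝ) * √p) ≤ 0.0118 :=
  (s11 M).trans (by norm_num)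
theorem sum15_12 (M : ℕ) : ∑ p ∈ primesIoc 4096 M, 1 / ((p : ℝ) * √p) ≤ 0.0078 :=
  (s12 M).trans (by norm_num)

/-- The induction of `card_primes_pow` from its base case. -/
theorem card_primes_pow_of (h0 : (primesIoc 1 (2 ^ 16)).card ≤ 9420) (I : ℕ) (hI : 16 ≤ I) :
    ((primesIoc 1 (2 ^ I)).card : ℝ) ≤ 2.3 * 2 ^ I / I := by
  classical
  induction I, hI using Nat.le_induction with
  | base =>
    have : ((primesIoc 1 (2 ^ 16)).card : ℝ) ≤ 9420 := by exact_mod_cast h0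
    calc ((primesIoc 1 (2 ^ 16)).card : ℝ) ≤ 9420 := this
      _ ≤ 2.3 * 2 ^ 16 / ((16 : ℕ) : ℝ) := by norm_num
  | succ I hI ih =>
    have h1 : (primesIoc 1 (2 ^ (I + 1))).card ≤
        (primesIoc 1 (2 ^ I)).card + (primesIoc (2 ^ I) (2 ^ (I + 1))).card :=
      (Finset.card_le_card (primesIoc_subset 1 (2 ^ I) (2 ^ (I + 1)))).trans
        (Finset.card_union_le _ _)
    have h2 : ((primesIoc 1 (2 ^ (I + 1))).card : ℝ) ≤
        ((primesIoc 1 (2 ^ I)).card : ℝ) + ((primesIoc (2 ^ I) (2 ^ (I + 1))).card : ℝ) := by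
      exact_mod_cast h1
    have h3 := card_primes_dyadic I (by omega)
    have hI' : (16 : ℝ) ≤ I := by exact_mod_cast hI
    have h4 : 2.3 * 2 ^ I / (I : ℝ) + (2 : ℝ) ^ (I + 1) / I ≤
        2.3 * 2 ^ (I + 1) / ((I + 1 : ℕ) : ℝ) := by
      rw [← add_div, div_le_div_iff₀ (by linarith) (by positivity), pow_succ]
      push_cast
      have h5 : (0 : ℝ) < 2 ^ I := by positivity
      have h6 : 43 * ((I : ℝ) + 1) ≤ 46 * I := by linarith
      have h7 := mul_le_mul_of_nonneg_left h6 h5.le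
      generalize (2 : ℝ) ^ I = X at h5 h7 ⊢
      linarith
    linarith

theorem one_sub_sum_le (s : Finset ℕ) (f : ℕ → ℝ) (h0 : ∀ p ∈ s, 0 ≤ f p)
    (h1 : ∀ p ∈ s, f p ≤ 1) :
    1 - ∑ p ∈ s, f p ≤ ∏ p ∈ s, (1 - f p) ∧ ∏ p ∈ s, (1 - f p) ≤ 1 := by
  classical
  induction s using Finset.induction_on with
  | empty => simp
  | insert a s ha ih =>
    obtain ⟨h2, h3⟩ := ih (fun p hp => h0 p (Finset.mem_insert_of_mem hp))
      (fun p hp => h1 p (Finset.mem_insert_of_mem hp))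
    rw [Finset.sum_insert ha, Finset.prod_insert ha]
    have h4 := h0 a (Finset.mem_insert_self _ _)
    have h5 := h1 a (Finset.mem_insert_self _ _)
    have h6 : 0 ≤ ∏ p ∈ s, (1 - f p) :=
      Finset.prod_nonneg (fun p hp => by
        have := h1 p (Finset.mem_insert_of_mem hp)
        linarith)
    constructor <;> nlinarith

theorem V_mono_step (i : ℕ) (hi : 3 ≤ i) : V (2 ^ i) * (1 - 2 / (i : ℝ)) ≤ V (2 ^ (i + 1)) := by
  classical
  have hi' : (3 : ℝ) ≤ i := by exact_mod_cast hi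
  have hsplit : primesIoc 1 (2 ^ (i + 1)) =
      primesIoc 1 (2 ^ i) ∪ primesIoc (2 ^ i) (2 ^ (i + 1)) := by
    apply Finset.Subset.antisymm (primesIoc_subset _ _ _)
    intro p hp
    have h1 : 2 ^ i ≤ 2 ^ (i + 1) := Nat.pow_le_pow_right (by norm_num) (Nat.le_succ i)
    have h2 : 1 ≤ 2 ^ i := Nat.one_le_two_pow
    rw [Finset.mem_union, mem_primesIoc, mem_primesIoc] at hp
    rw [mem_primesIoc]
    rcases hp with ⟨⟨h3, h4⟩, h5⟩ | ⟨⟨h3, h4⟩, h5⟩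
    · exact ⟨⟨h3, h4.trans h1⟩, h5⟩
    · exact ⟨⟨by omega, h4⟩, h5⟩
  have hdisj : Disjoint (primesIoc 1 (2 ^ i)) (primesIoc (2 ^ i) (2 ^ (i + 1))) := by
    rw [Finset.disjoint_left]
    intro p h1 h2
    have h3 := (mem_primesIoc.1 h1).1.2
    have h4 := (mem_primesIoc.1 h2).1.1
    omega
  unfold V
  rw [hsplit, Finset.prod_union hdisj]
  have hV : 0 ≤ ∏ p ∈ primesIoc 1 (2 ^ i), (1 - 1 / (p : ℝ)) := by
    apply Finset.prod_nonneg
    intro p hp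
    have h1 : (2 : ℝ) ≤ p := by exact_mod_cast (mem_primesIoc.1 hp).2.two_le
    have h2 : 1 / (p : ℝ) ≤ 1 := by
      rw [div_le_one (by linarith)]
      linarith
    linarith
  apply mul_le_mul_of_nonneg_left _ hV
  have h1 : 1 - ∑ p ∈ primesIoc (2 ^ i) (2 ^ (i + 1)), 1 / (p : ℝ) ≤
      ∏ p ∈ primesIoc (2 ^ i) (2 ^ (i + 1)), (1 - 1 / (p : ℝ)) := by
    refine (one_sub_sum_le _ _ ?_ ?_).1
    · intro p hp
      positivity
    · intro p hp
      have h1 : (2 : ℝ) ≤ p := by exact_mod_cast (mem_primesIoc.1 hp).2.two_le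
      rw [div_le_one (by linarith)]
      linarith
  have h2 : ∑ p ∈ primesIoc (2 ^ i) (2 ^ (i + 1)), 1 / (p : ℝ) ≤ 2 / (i : ℝ) := by
    have h3 : (0 : ℝ) < 2 ^ i := by positivity
    calc ∑ p ∈ primesIoc (2 ^ i) (2 ^ (i + 1)), 1 / (p : ℝ)
        ≤ ∑ p ∈ primesIoc (2 ^ i) (2 ^ (i + 1)), 1 / (2 : ℝ) ^ i := by
          apply Finset.sum_le_sum
          intro p hp
          apply one_div_le_one_div_of_le h3
          have : ((2 ^ i : ℕ) : ℝ) ≤ (p : ℝ) := by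
            exact_mod_cast (mem_primesIoc.1 hp).1.1.le
          simpa using this
      _ = ((primesIoc (2 ^ i) (2 ^ (i + 1))).card : ℝ) * (1 / (2 : ℝ) ^ i) := by
          rw [Finset.sum_const, nsmul_eq_mul]
      _ ≤ ((2 : ℝ) ^ (i + 1) / i) * (1 / (2 : ℝ) ^ i) :=
          mul_le_mul_of_nonneg_right (card_primes_dyadic i (by omega)) (by positivity)
      _ = 2 / (i : ℝ) := by
          rw [pow_succ]
          field_simp
  linarith

/-- The induction of `V_pow` from its base case. -/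
theorem V_pow_of (h0 : 0.0506 ≤ V (2 ^ 16)) (I : ℕ) (hI : 16 ≤ I) :
    0.0506 * 210 / (((I : ℝ) - 1) * (I - 2)) ≤ V (2 ^ I) := by
  induction I, hI using Nat.le_induction with
  | base =>
    norm_num at h0 ⊢
    linarith
  | succ I hI ih =>
    have h1 := V_mono_step I (by omega)
    have hI' : (16 : ℝ) ≤ I := by exact_mod_cast hI
    have h2 : 0 ≤ 1 - 2 / (I : ℝ) := by
      have : 2 / (I : ℝ) ≤ 1 := by
        rw [div_le_one (by linarith)]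
        linarith
      linarith
    have h3 := mul_le_mul_of_nonneg_right ih h2
    have h4 : 0.0506 * 210 / ((((I + 1 : ℕ) : ℝ) - 1) * (((I + 1 : ℕ) : ℝ) - 2)) =
        0.0506 * 210 / (((I : ℝ) - 1) * (I - 2)) * (1 - 2 / (I : ℝ)) := by
      push_cast
      have e1 : (I : ℝ) - 1 ≠ 0 := by
        have : (0 : ℝ) < I - 1 := by linarith
        exact this.ne'
      have e2 : (I : ℝ) - 2 ≠ 0 := by
        have : (0 : ℝ) < I - 2 := by linarith
        exact this.ne'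
      have e3 : (I : ℝ) ≠ 0 := by
        have : (0 : ℝ) < I := by linarith
        exact this.ne'
      have e4 : (I : ℝ) + 1 - 1 = I := by ring
      have e5 : (I : ℝ) + 1 - 2 = I - 1 := by ring
      rw [e4, e5]
      field_simp
    rw [h4]
    linarith

end Pool.Agent.Helper94.TC
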